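import Pool.Agent.Helper93.T53.StD

/-!
# Project T53, module Sur: solving the inhomogeneous relation
-/

set_option autoImplicit false

namespace Pool.Agent.Helper25.T53

open Pool.Agent.Helper93.T53
open Pool.Agent.Helper14.CV (Homog EqC act Tl StFar StFex)
open Pool.Agent.Helper28.WK (Tw evw)
open Pool.Agent.Helper78.W3 (tr Fn3 Tm opL op3 mulL negL Wd3 dX dY oD oN Lw sS M5 bb3 S3PlA S3Trm S3Low0 S3Nf S3Exp S3Lw1 S3Bb)
open Pool.Agent.Helper28.T5 (HTy SymH)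
open Pool.Agent.Helper83.T5C (SHHk SHHkS LBH)
open Pool.Agent.Helper93.TLE (DDE)

private theorem alg_even {V : Type} [AddCommGroup V] [Module (ZMod 3) V]
    (N X Y A S1 S3 : Module.End (ZMod 3) V) (hN : ∀ v, N (N v) = v) (P Q : V)
    {P' Q' : V} (h1 : P' = N P - P) (h2 : Q' = N Q - Q) :
    (X P + Y Q) - ((A P' - P') + (-Q' - S1 (-Q')) + (Q' - S3 Q')) =
      (2 : ZMod 3) • X (N P + P) - Y (N Q + Q) - (A P' - P' - X P') - (N (Y Q') + Y (N Q'))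
      - (S1 Q' - N Q') + (S3 Q' - N (Q' - Y Q')) := by
  subst h1
  subst h2
  simp only [hN, map_add, map_sub, map_neg]
  match_scalars <;> decide

private theorem alg_odd {V : Type} [AddCommGroup V] [Module (ZMod 3) V]
    (N M : Module.End (ZMod 3) V) (hN : ∀ v, N (N v) = v) (E : V)
    {f : V} (h1 : f = E - N E) :
    E - (f - M f) = (2 : ZMod 3) • (N E + E) + (M f - N f) := by
  subst h1
  simp only [hN, map_sub]
  match_scalars <;> decide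

private theorem qT_eq (r s : ℕ) (f : Fin 5 → Fn3 (3 ^ r) (3 ^ s)) (b : Fin 4 → Fn3 (3 ^ r) (3 ^ s)) :
    (qT f b : Fn3 (3 ^ r) (3 ^ s)) =
      (op3 1 1 0 1 (f 0) - f 0) + (f 1 - op3 5 1 5 10 (f 1)) +
      (f 2 - op3 65 12 15 25 (f 2)) + (f 3 - op3 70 (-13) 15 (-25) (f 3)) +
      (f 4 - op3 10 1 5 5 (f 4)) + (b 0 - op3 20 3 (-15) (-20) (b 0)) +
      (b 1 - op3 20 (-3) 15 (-20) (b 1)) + (b 2 - op3 20 (-9) 5 (-20) (b 2)) +
      (b 3 - op3 25 (-14) 5 (-25) (b 3)) := by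
  funext x y
  rfl

private theorem qT_add (r s : ℕ) (f g : Fin 5 → Fn3 (3 ^ r) (3 ^ s))
    (b c : Fin 4 → Fn3 (3 ^ r) (3 ^ s)) :
    (qT (fun i => f i + g i) (fun i => b i + c i) : Fn3 (3 ^ r) (3 ^ s)) = qT f b + qT g c := by
  rw [qT_eq, qT_eq, qT_eq]
  simp only [map_add]
  abel

private theorem qT_zero (r s : ℕ) :
    (qT (fun _ => 0) (fun _ => 0) : Fn3 (3 ^ r) (3 ^ s)) = 0 := by
  rw [qT_eq]
  simp

private theorem decomp_Sur (hLow0 : S3Low0) (hBb : S3Bb) (r s : ℕ) (e : ℤ) (E : Fn3 (3 ^ r) (3 ^ s))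
    (he : e < 3 ^ r + 3 ^ s - 2) (hE : E ∈ Wd3 e) :
    ∃ U V : Fn3 (3 ^ r) (3 ^ s), U ∈ Wd3 (e + 1) ∧ V ∈ Wd3 (e + 1) ∧ dX U + dY V = E := by
  obtain ⟨_, _, _, _, hmono, _⟩ := hLow0 r s
  obtain ⟨h1, h2, h3, _, _, h6⟩ := hBb r s
  set c : ℕ → ℕ → ZMod 3 := fun i j =>
    ((dX ^ i * dY ^ j : Module.End (ZMod 3) (Fn3 (3 ^ r) (3 ^ s))) E) 0 0 with hc
  have hc0 : ∀ i j : ℕ, e < (i : ℤ) + j → c i j = 0 := by
    intro i j hij
    have : ((dX ^ i * dY ^ j : Module.End (ZMod 3) (Fn3 (3 ^ r) (3 ^ s))) E) = 0 := hE i j hij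
    rw [hc]
    simp only [this]
    rfl
  have hj : ∀ i j : ℕ, i < 3 ^ r → (i : ℤ) + j ≤ e → ¬ (i + 1 < 3 ^ r) → j + 1 < 3 ^ s := by
    intro i j hi hij hi1
    have h7 : i + 1 = 3 ^ r := by omega
    have h8 : (i : ℤ) + 1 = 3 ^ r := by exact_mod_cast h7
    have h9 : (j : ℤ) + 1 < 3 ^ s := by linarith
    exact_mod_cast h9
  refine ⟨∑ i ∈ Finset.range (3 ^ r), ∑ j ∈ Finset.range (3 ^ s),
      (if i + 1 < 3 ^ r then c i j • bb3 (i + 1) j else 0),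
    ∑ i ∈ Finset.range (3 ^ r), ∑ j ∈ Finset.range (3 ^ s),
      (if i + 1 < 3 ^ r then 0 else c i j • bb3 i (j + 1)), ?_, ?_, ?_⟩
  · refine Submodule.sum_mem _ fun i hi => Submodule.sum_mem _ fun j hj => ?_
    rw [Finset.mem_range] at hi hj
    split_ifs with h
    · by_cases hij : (i : ℤ) + j ≤ e
      · refine Submodule.smul_mem _ _ (hmono _ _ ?_ (h1 (i + 1) j h hj))
        push_cast
        linarith
      · rw [hc0 i j (not_le.1 hij), zero_smul]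
        exact Submodule.zero_mem _
    · exact Submodule.zero_mem _
  · refine Submodule.sum_mem _ fun i hi => Submodule.sum_mem _ fun j _ => ?_
    rw [Finset.mem_range] at hi
    split_ifs with h
    · exact Submodule.zero_mem _
    · by_cases hij : (i : ℤ) + j ≤ e
      · refine Submodule.smul_mem _ _ (hmono _ _ ?_ (h1 i (j + 1) hi (hj i j hi hij h)))
        push_cast
        linarith
      · rw [hc0 i j (not_le.1 hij), zero_smul]
        exact Submodule.zero_mem _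
  · refine Eq.trans ?_ (h6 E).symm
    rw [map_sum, map_sum, ← Finset.sum_add_distrib]
    refine Finset.sum_congr rfl fun i hi => ?_
    rw [map_sum, map_sum, ← Finset.sum_add_distrib]
    refine Finset.sum_congr rfl fun j hj' => ?_
    rw [Finset.mem_range] at hi hj'
    have hcc : ((dX ^ i * dY ^ j : Module.End (ZMod 3) (Fn3 (3 ^ r) (3 ^ s))) E) 0 0 = c i j := rfl
    rw [hcc]
    by_cases h : i + 1 < 3 ^ r
    · rw [if_pos h, if_pos h, map_smul, map_zero, add_zero, h2 i j h hj']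
    · rw [if_neg h, if_neg h, map_smul, map_zero, zero_add]
      by_cases hij : (i : ℤ) + j ≤ e
      · rw [h3 i j hi (hj i j hi hij h)]
      · rw [hc0 i j (not_le.1 hij), zero_smul, zero_smul]

/-- One step of the induction. -/
private theorem step_Sur (hLow0 : S3Low0) (hLw1 : S3Lw1) (hw : TLwt) (hBb : S3Bb) (r s : ℕ)
    (e : ℤ) (E : Fn3 (3 ^ r) (3 ^ s)) (he : e < 3 ^ r + 3 ^ s - 2) (hE : E ∈ Wd3 e) :
    ∃ (f : Fin 5 → Fn3 (3 ^ r) (3 ^ s)) (b : Fin 4 → Fn3 (3 ^ r) (3 ^ s)),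
      (∀ i, f i ∈ Wd3 (e + 1)) ∧ (∀ i, b i ∈ Wd3 (e + 1)) ∧
      (Odd e → (∀ i, f i ∈ Wd3 e) ∧ (∀ i, b i ∈ Wd3 e)) ∧
      E - qT f b ∈ (Wd3 (e - 1) : Submodule (ZMod 3) (Fn3 (3 ^ r) (3 ^ s))) := by
  obtain ⟨_, _, _, _, hmono, _, hdX, hdY, _⟩ := hLow0 r s
  obtain ⟨_, _, _, _, hN0, _, _⟩ := hLw1 r s
  obtain ⟨hNN, _, hcY, _, hod, hA, _, hM, _, _, hS1, _, hS3, _⟩ := hw r s
  have hNNv : ∀ v : Fn3 (3 ^ r) (3 ^ s), oN (oN v) = v := fun v => by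
    have h := congrArg (fun O : Module.End (ZMod 3) (Fn3 (3 ^ r) (3 ^ s)) => O v) hNN
    exact h
  have hN : ∀ (d : ℤ) (F : Fn3 (3 ^ r) (3 ^ s)), F ∈ Wd3 d → oN F ∈ Wd3 d := by
    intro d F hF
    have := hN0 d F hF
    rwa [sub_zero] at this
  have hX : ∀ (d : ℤ) (F : Fn3 (3 ^ r) (3 ^ s)), F ∈ Wd3 (d + 1) → dX F ∈ Wd3 d := by
    intro d F hF
    have := hdX _ _ hF
    rwa [add_sub_cancel_right] at this
  have hY : ∀ (d : ℤ) (F : Fn3 (3 ^ r) (3 ^ s)), F ∈ Wd3 (d + 1) → dY F ∈ Wd3 d := by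
    intro d F hF
    have := hdY _ _ hF
    rwa [add_sub_cancel_right] at this
  -- residuals
  have rA : ∀ (d : ℤ) (F : Fn3 (3 ^ r) (3 ^ s)), F ∈ Wd3 d →
      op3 1 1 0 1 F - F - dX F ∈ Wd3 (d - 2) := fun d F hF => hA d F hF
  have rM : ∀ (d : ℤ) (F : Fn3 (3 ^ r) (3 ^ s)), F ∈ Wd3 d →
      op3 65 12 15 25 F - oN F ∈ Wd3 (d - 2) := fun d F hF => hM d F hF
  have r1 : ∀ (d : ℤ) (F : Fn3 (3 ^ r) (3 ^ s)), F ∈ Wd3 d →
      op3 20 3 (-15) (-20) F - oN F ∈ Wd3 (d - 2) := fun d F hF => hS1 d F hF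
  have r3 : ∀ (d : ℤ) (F : Fn3 (3 ^ r) (3 ^ s)), F ∈ Wd3 d →
      op3 20 (-9) 5 (-20) F - oN (F - dY F) ∈ Wd3 (d - 2) := fun d F hF => hS3 d F hF
  have cY : ∀ (d : ℤ) (F : Fn3 (3 ^ r) (3 ^ s)), F ∈ Wd3 d →
      oN (dY F) + dY (oN F) ∈ Wd3 (d - 2) := fun d F hF => hcY d F hF
  have z0 : ∀ d : ℤ, (0 : Fn3 (3 ^ r) (3 ^ s)) ∈ Wd3 d := fun d => Submodule.zero_mem _
  rcases Int.even_or_odd e with hpar | hpar
  · obtain ⟨P, Q, hP, hQ, hPQ⟩ := decomp_Sur hLow0 hBb r s e E he hE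
    have hodd : Odd (e + 1) := hpar.add_one
    obtain ⟨P', hP'⟩ : ∃ P' : Fn3 (3 ^ r) (3 ^ s), P' = oN P - P := ⟨_, rfl⟩
    obtain ⟨Q', hQ'⟩ : ∃ Q' : Fn3 (3 ^ r) (3 ^ s), Q' = oN Q - Q := ⟨_, rfl⟩
    have mP' : P' ∈ (Wd3 (e + 1) : Submodule (ZMod 3) (Fn3 (3 ^ r) (3 ^ s))) := by
      rw [hP']
      exact Submodule.sub_mem _ (hN _ _ hP) hP
    have mQ' : Q' ∈ (Wd3 (e + 1) : Submodule (ZMod 3) (Fn3 (3 ^ r) (3 ^ s))) := by
      rw [hQ']
      exact Submodule.sub_mem _ (hN _ _ hQ) hQ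
    refine ⟨![P', 0, 0, 0, 0], ![-Q', 0, Q', 0], ?_, ?_,
      fun ho => absurd ho (Int.not_odd_iff_even.2 hpar), ?_⟩
    · intro i
      fin_cases i
      · exact mP'
      · exact z0 _
      · exact z0 _
      · exact z0 _
      · exact z0 _
    · intro i
      fin_cases i
      · exact Submodule.neg_mem _ mQ'
      · exact z0 _
      · exact mQ'
      · exact z0 _
    · have eq : (qT ![P', 0, 0, 0, 0] ![-Q', 0, Q', 0] : Fn3 (3 ^ r) (3 ^ s)) =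
          (op3 1 1 0 1 P' - P') + (-Q' - op3 20 3 (-15) (-20) (-Q')) +
            (Q' - op3 20 (-9) 5 (-20) Q') := by
        have h0 : (qT ![P', 0, 0, 0, 0] ![-Q', 0, Q', 0] : Fn3 (3 ^ r) (3 ^ s)) =
          (op3 1 1 0 1 P' - P') + ((0 : Fn3 (3 ^ r) (3 ^ s)) - op3 5 1 5 10 0) +
          (0 - op3 65 12 15 25 0) + (0 - op3 70 (-13) 15 (-25) 0) +
          (0 - op3 10 1 5 5 0) + (-Q' - op3 20 3 (-15) (-20) (-Q')) +
          (0 - op3 20 (-3) 15 (-20) 0) + (Q' - op3 20 (-9) 5 (-20) Q') +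
          (0 - op3 25 (-14) 5 (-25) 0) := qT_eq r s _ _
        rw [h0]
        simp only [map_zero, sub_zero, add_zero]
      rw [eq, ← hPQ, alg_even oN dX dY (op3 1 1 0 1) (op3 20 3 (-15) (-20))
        (op3 20 (-9) 5 (-20)) hNNv P Q hP' hQ']
      have l2 : ∀ F : Fn3 (3 ^ r) (3 ^ s), F ∈ Wd3 (e + 1 - 2) → F ∈ Wd3 (e - 1) :=
        fun F hF => by rwa [show e + 1 - 2 = e - 1 by ring] at hF
      have hX' : ∀ F : Fn3 (3 ^ r) (3 ^ s), F ∈ Wd3 e → dX F ∈ Wd3 (e - 1) := fun F hF =>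
        hX _ _ (by rwa [sub_add_cancel])
      have hY' : ∀ F : Fn3 (3 ^ r) (3 ^ s), F ∈ Wd3 e → dY F ∈ Wd3 (e - 1) := fun F hF =>
        hY _ _ (by rwa [sub_add_cancel])
      have cS : ∀ F : Fn3 (3 ^ r) (3 ^ s), F ∈ Wd3 (e + 1) → oN F + F ∈ Wd3 e := fun F hF => by
        have := hod (e + 1) F hF hodd
        rwa [add_sub_cancel_right] at this
      refine Submodule.add_mem _ (Submodule.sub_mem _ (Submodule.sub_mem _ (Submodule.sub_mem _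
        (Submodule.sub_mem _ (Submodule.smul_mem _ _ ?_) ?_) ?_) ?_) ?_) ?_
      · exact hX' _ (cS _ hP)
      · exact hY' _ (cS _ hQ)
      · exact l2 _ (rA _ _ mP')
      · exact l2 _ (cY _ _ mQ')
      · exact l2 _ (r1 _ _ mQ')
      · exact l2 _ (r3 _ _ mQ')
  · obtain ⟨f1, hf1⟩ : ∃ f1 : Fn3 (3 ^ r) (3 ^ s), f1 = E - oN E := ⟨_, rfl⟩
    have mf1 : f1 ∈ (Wd3 e : Submodule (ZMod 3) (Fn3 (3 ^ r) (3 ^ s))) := by
      rw [hf1]
      exact Submodule.sub_mem _ hE (hN _ _ hE)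
    have mf : ∀ i : Fin 5, (![0, 0, f1, 0, 0] : Fin 5 → Fn3 (3 ^ r) (3 ^ s)) i ∈ Wd3 e := by
      intro i
      fin_cases i
      · exact z0 _
      · exact z0 _
      · exact mf1
      · exact z0 _
      · exact z0 _
    refine ⟨![0, 0, f1, 0, 0], fun _ => 0, fun i => hmono _ _ (by linarith) (mf i), fun i => z0 _,
      fun _ => ⟨mf, fun i => z0 _⟩, ?_⟩
    have eq : (qT ![0, 0, f1, 0, 0] (fun _ => 0) : Fn3 (3 ^ r) (3 ^ s)) =
        f1 - op3 65 12 15 25 f1 := by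
      have h0 : (qT ![0, 0, f1, 0, 0] (fun _ => 0) : Fn3 (3 ^ r) (3 ^ s)) =
        (op3 1 1 0 1 0 - (0 : Fn3 (3 ^ r) (3 ^ s))) + ((0 : Fn3 (3 ^ r) (3 ^ s)) - op3 5 1 5 10 0) +
        (f1 - op3 65 12 15 25 f1) + (0 - op3 70 (-13) 15 (-25) 0) +
        (0 - op3 10 1 5 5 0) + (0 - op3 20 3 (-15) (-20) 0) +
        (0 - op3 20 (-3) 15 (-20) 0) + (0 - op3 20 (-9) 5 (-20) 0) +
        (0 - op3 25 (-14) 5 (-25) 0) := qT_eq r s _ _
      rw [h0]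
      simp only [map_zero, sub_zero, add_zero, zero_add]
    rw [eq, alg_odd oN (op3 65 12 15 25) hNNv E hf1]
    exact Submodule.add_mem _ (Submodule.smul_mem _ _ (hod e _ hE hpar))
      (hmono _ _ (by linarith) (rM _ _ mf1))

private theorem main_Sur (hLow0 : S3Low0) (hLw1 : S3Lw1) (hw : TLwt) (hBb : S3Bb) (r s : ℕ) :
    ∀ (n : ℕ) (e : ℤ) (E : Fn3 (3 ^ r) (3 ^ s)), e < n → e < 3 ^ r + 3 ^ s - 2 → E ∈ Wd3 e →
    ∃ (f : Fin 5 → Fn3 (3 ^ r) (3 ^ s)) (b : Fin 4 → Fn3 (3 ^ r) (3 ^ s)),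
      (∀ i, f i ∈ Wd3 (e + 1)) ∧ (∀ i, b i ∈ Wd3 (e + 1)) ∧
      (Odd e → (∀ i, f i ∈ Wd3 e) ∧ (∀ i, b i ∈ Wd3 e)) ∧ qT f b = E := by
  have hL := hLow0 r s
  obtain ⟨_, _, _, _, hmono, _, _, _, _, _, _, _, _, hneg⟩ := hL
  intro n
  induction n with
  | zero =>
    intro e E he _ hE
    have h1 : E = 0 := hneg E (hmono e (-1) (by
      have : e < 0 := by exact_mod_cast he
      omega) hE)
    refine ⟨fun _ => 0, fun _ => 0, fun _ => Submodule.zero_mem _, fun _ => Submodule.zero_mem _,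
      fun _ => ⟨fun _ => Submodule.zero_mem _, fun _ => Submodule.zero_mem _⟩, ?_⟩
    rw [h1]
    exact qT_zero r s
  | succ n ih =>
    intro e E he he2 hE
    obtain ⟨f, b, hf, hb, ho, hR⟩ := step_Sur hLow0 hLw1 hw hBb r s e E he2 hE
    obtain ⟨g, c, hg, hc, _, hR'⟩ := ih (e - 1) _ (by push_cast at he; linarith)
      (by linarith) hR
    have h6 : e - 1 + 1 = e := by ring
    rw [h6] at hg hc
    refine ⟨fun i => f i + g i, fun i => b i + c i,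
      fun i => Submodule.add_mem _ (hf i) (hmono _ _ (by linarith) (hg i)),
      fun i => Submodule.add_mem _ (hb i) (hmono _ _ (by linarith) (hc i)), ?_, ?_⟩
    · intro hodd
      obtain ⟨k0, k1⟩ := ho hodd
      exact ⟨fun i => Submodule.add_mem _ (k0 i) (hg i), fun i => Submodule.add_mem _ (k1 i) (hc i)⟩
    · rw [qT_add, hR']
      abel

theorem hSur (_ht : S3Trm) (hl : S3Low0) (h1 : S3Lw1) (hw : TLwt) (hb : S3Bb) : TSur := by
  intro r s e E he hE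
  obtain ⟨f, b, a1, a2, a3, a4⟩ := main_Sur hl h1 hw hb r s (e + 1).toNat e E (by
    have := Int.self_le_toNat (e + 1)
    linarith) he hE
  exact ⟨f, b, a1, a2, a3, a4⟩

end Pool.Agent.Helper25.T53
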